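import Pool.Agent.helper16.EXT.Spec3T

set_option autoImplicit false

open Finset

namespace Pool.Agent.EXT

open Pool.Agent.EXC

theorem ISC_uniq {K : Type} [Field K] (τ : K ≃+* K) (hτ : ∀ x, τ (τ x) = x) (hGFX : GFX_stmt) (x : MulAut (GF τ))
    (σ σ' : K0 τ ≃+* K0 τ) (a b : Lm C6 K) (c c' : K0 τ)
    (ha : ExS τ a) (hb : ExS τ b) (hc : c ≠ 0) (h : SLF τ x σ a b c) (h' : SLF τ x σ' a b c') : σ = σ' := by
  obtain ⟨hx, -⟩ := (hGFX K τ hτ).2 a ha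
  obtain ⟨-, -, -, hu, -⟩ := (hGFX K τ hτ).2 b hb
  have h1 : ∀ u, c * σ u = c' * σ' u := by
    intro u
    obtain ⟨g, hg, hgx⟩ := hx u u.2
    have h2 := hu _ _ _ (h u ⟨g, hg⟩ hgx) (h' u ⟨g, hg⟩ hgx)
    exact Subtype.ext h2
  have h2 : c = c' := by
    have := h1 1
    rwa [map_one, map_one, mul_one, mul_one] at this
  refine RingEquiv.ext fun u => ?_
  have h3 := h1 u
  rw [← h2] at h3
  exact mul_left_cancel₀ hc h3

theorem ISC (hISE : ISE_stmt) (hCNF : CNF_stmt) (hIMF : IMF_stmt) (hTFS : TFS_stmt) (hESF : ESF_stmt) (hGFX : GFX_stmt)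
    (hRTF : RTF_stmt) : ISC_stmt := by
  intro K _ τ hτ x hx
  obtain ⟨hESL, hESA⟩ := hESF K τ hτ
  obtain ⟨hI1, hI3, hI4, -⟩ := hIMF K τ hτ x hx
  -- scalars: IsF of a multiple
  have hscal : ∀ (a : Lm C6 K), ExS τ a → ∀ (c t : K) (g : Equiv.Perm (LT τ)), IsF τ (c • a) t g ↔ IsF τ a (c * t) g := by
    intro a ha c t g
    have hnb := (f_NBR 6 C6 1 th ![0, 2, 3, 4, 5] f_DE6.2).1
    have hX : Xtr C6 a := ((f_EXF 6 C6 K hnb).2.2.1 a (hESA a ha).1).1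
    have h1 := ((f_XAU 6 C6 K a hX).2.2.2 c).2
    constructor
    · intro h v
      rw [h v, h1]
    · intro h v
      rw [h v, h1]
  have hLth : LR th := hRTF.2.2.2.2.2.2.2.2.2.2.2.2.2.1
  have hLβ : LR (th - sr 1) := ⟨by decide, by decide⟩
  have hip : ip C6 th (th - sr 1) = 1 := by decide
  have hT : TpS τ (E C6 th : Lm C6 K) (E C6 (th - sr 1)) 1 := by
    refine ⟨1, Subgroup.one_mem _, th - sr 1, hLβ, hip, 1, 1, map_one _, map_one _, one_ne_zero, one_ne_zero, ?_, ?_⟩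
    · rw [one_smul]
      rfl
    · rw [one_smul]
      rfl
  have hE0 := hESL th hLth
  have hE1 := hESL (th - sr 1) hLβ
  obtain ⟨b0, hb0, hIm0⟩ := hx (E C6 th) hE0
  obtain ⟨b1, hb1, hIm1⟩ := hx (E C6 (th - sr 1)) hE1
  obtain ⟨σ, ⟨c0, hc0, hSL0⟩, -⟩ := hISE K τ hτ x hx (E C6 th) b0 (E C6 (th - sr 1)) b1 hE0 hb0 hE1 hb1 hIm0 hIm1 hT
  refine ⟨σ, ?_⟩
  have key := hCNF K τ hτ (fun a => ExS τ a → ∀ b, ExS τ b → ImF τ x a b → ∃ c, c ≠ 0 ∧ SLF τ x σ a b c)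
  have step : ∀ a a2, TpS τ a a2 1 → (ExS τ a → ∀ b, ExS τ b → ImF τ x a b → ∃ c, c ≠ 0 ∧ SLF τ x σ a b c) →
      (ExS τ a2 → ∀ b, ExS τ b → ImF τ x a2 b → ∃ c, c ≠ 0 ∧ SLF τ x σ a2 b c) := by
    intro a a2 hTa hP ha2 b2 hb2 hIm2
    have ha : ExS τ a := (hTFS K τ hτ a a2 1 hTa).1
    obtain ⟨b, hb, hIm⟩ := hx a ha
    obtain ⟨c1, hc1, hSL1⟩ := hP ha b hb hIm
    obtain ⟨σ', ⟨c2, hc2, hSL2⟩, ⟨c3, hc3, hSL3⟩⟩ := hISE K τ hτ x hx a b a2 b2 ha hb ha2 hb2 hIm hIm2 hTa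
    have hσ : σ = σ' := ISC_uniq τ hτ hGFX x σ σ' a b c1 c2 ha hb hc1 hSL1 hSL2
    rw [hσ]
    exact ⟨c3, hc3, hSL3⟩
  intro a b ha hb hIm
  refine key ?_ step ⟨E C6 th, hE0, ?_⟩ a ha ha b hb hIm
  · -- scalars
    intro a c hτc hc hP hca b hb hIm
    have hτi : τ c⁻¹ = c⁻¹ := by rw [map_inv₀, hτc]
    have ha : ExS τ a := by
      have h1 := (hESA _ hca).2.2.2.2.1 c⁻¹ hτi (inv_ne_zero hc)
      rwa [smul_smul, inv_mul_cancel₀ hc, one_smul] at h1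
    have hIm' : ImF τ x a b := by
      have h1 := hI4 (c • a) b c⁻¹ 1 hca hb hτi (map_one _) (inv_ne_zero hc) one_ne_zero hIm
      rwa [smul_smul, inv_mul_cancel₀ hc, one_smul, one_smul] at h1
    obtain ⟨c1, hc1, hSL⟩ := hP ha b hb hIm'
    set c0' : K0 τ := ⟨c, K0_mem τ hτc⟩ with hc0'
    have hc0'ne : c0' ≠ 0 := by
      intro h
      apply hc
      exact congrArg Subtype.val h
    refine ⟨c1 * σ c0', mul_ne_zero hc1 ((map_ne_zero_iff σ σ.injective).2 hc0'ne), ?_⟩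
    intro u h hh
    have h1 := hSL (c0' * u) h ((hscal a ha c u _).1 hh)
    rw [map_mul, ← mul_assoc] at h1
    exact h1
  · intro _ b hb hIm
    obtain ⟨c, hτc, hc, rfl⟩ := hI3 (E C6 th) b0 b hE0 hb0 hb hIm0 hIm
    set c1 : K0 τ := ⟨c, K0_mem τ hτc⟩ with hc1
    have hc1ne : c1 ≠ 0 := by
      intro h
      apply hc
      exact congrArg Subtype.val h
    refine ⟨c1⁻¹ * c0, mul_ne_zero (inv_ne_zero hc1ne) hc0, ?_⟩
    intro u h hh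
    refine (hscal b0 hb0 c _ _).2 ?_
    have h1 := hSL0 u h hh
    have h2 : c * ((c1⁻¹ * c0 * σ u : K0 τ) : K) = ((c0 * σ u : K0 τ) : K) := by
      have h3 : c = ((c1 : K0 τ) : K) := rfl
      rw [h3]
      have h4 : c1 * (c1⁻¹ * c0 * σ u) = c0 * σ u := by
        rw [← mul_assoc, ← mul_assoc, mul_inv_cancel₀ hc1ne, one_mul]
      rw [← h4]
      rfl
    rw [h2]
    exact h1

end Pool.Agent.EXT
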